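import Mathlib

/-!
# Double covers which are domains

`S[e] / (e ^ 2 + b e + c)` is a domain if `S` is a unique factorization domain and the quadratic
equation has no root in `S`.
-/

open Polynomial

namespace Orl

variable {S : Type*} [CommRing S]

theorem monic_quad (b c : S) : (X ^ 2 + C b * X + C c : S[X]).Monic := by
  have h : (X ^ 2 + C b * X + C c : S[X]) = X ^ 2 + (C b * X + C c) := by ring
  rw [h]
  exact monic_X_pow_add (lt_of_le_of_lt degree_linear_le (by norm_num))

theorem natDegree_quad [Nontrivial S] (b c : S) :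
    (X ^ 2 + C b * X + C c : S[X]).natDegree = 2 := by
  have h : (X ^ 2 + C b * X + C c : S[X]) = C 1 * X ^ 2 + C b * X + C c := by rw [C_1, one_mul]
  rw [h]
  exact natDegree_quadratic one_ne_zero

/-- a quadratic polynomial without roots is prime -/
theorem prime_quad [IsDomain S] [UniqueFactorizationMonoid S] (b c : S)
    (h : ∀ s : S, s ^ 2 + b * s + c ≠ 0) : Prime (X ^ 2 + C b * X + C c : S[X]) := by
  have h2 : (X ^ 2 + C b * X + C c : S[X]).natDegree = 2 := natDegree_quad b c
  apply Irreducible.prime
  rw [(monic_quad b c).irreducible_iff_roots_eq_zero_of_degree_le_three (by omega) (by omega)]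
  rw [Multiset.eq_zero_iff_forall_notMem]
  intro s hs
  rw [mem_roots (monic_quad b c).ne_zero] at hs
  apply h s
  simpa [IsRoot] using hs

/-- the double cover is a domain -/
theorem isDomain_adjoinRoot_quad [IsDomain S] [UniqueFactorizationMonoid S] (b c : S)
    (h : ∀ s : S, s ^ 2 + b * s + c ≠ 0) :
    IsDomain (AdjoinRoot (X ^ 2 + C b * X + C c : S[X])) :=
  AdjoinRoot.isDomain_of_prime (prime_quad b c h)

end Orl
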