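import Pool.Agent.Work.MP_a6e60d_ag.Geo.Hypersurface

/-!
# Algebras which are free over a polynomial ring in two variables with basis `1, e`

`S` is a quotient of the polynomial ring in three variables by `e ^ 2 - F`.
-/

open MvPolynomial

namespace Orl

section

variable {R S : Type*} [CommRing R] [CommRing S]

/-- the inclusion of the polynomials in two variables -/
noncomputable def inc3 (R : Type*) [CommRing R] : MvPolynomial (Fin 2) R →ₐ[R] MvPolynomial (Fin 3) R :=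
  aeval ![X 0, X 1]

@[simp] theorem inc3_X0 : inc3 R (X 0) = X 0 := by simp [inc3]

@[simp] theorem inc3_X1 : inc3 R (X 1) = X 1 := by simp [inc3]

/-- the equation -/
noncomputable def eqn3 (F : MvPolynomial (Fin 2) R) : MvPolynomial (Fin 3) R := X 2 ^ 2 - inc3 R F

/-- division by the equation -/
theorem exists_rem3 (F : MvPolynomial (Fin 2) R) (G : MvPolynomial (Fin 3) R) :
    ∃ (P Q : MvPolynomial (Fin 2) R) (H : MvPolynomial (Fin 3) R),
      G = inc3 R P + inc3 R Q * X 2 + H * eqn3 F := by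
  induction G using MvPolynomial.induction_on with
  | C r => exact ⟨C r, 0, 0, by simp [inc3]⟩
  | add G G' h h' =>
    obtain ⟨P, Q, H, rfl⟩ := h
    obtain ⟨P', Q', H', rfl⟩ := h'
    refine ⟨P + P', Q + Q', H + H', ?_⟩
    rw [map_add, map_add]
    ring
  | mul_X G i h =>
    obtain ⟨P, Q, H, rfl⟩ := h
    fin_cases i
    · refine ⟨P * X 0, Q * X 0, H * X 0, ?_⟩
      rw [map_mul, map_mul, inc3_X0]
      change (_ : MvPolynomial (Fin 3) R) * X 0 = _
      ring
    · refine ⟨P * X 1, Q * X 1, H * X 1, ?_⟩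
      rw [map_mul, map_mul, inc3_X1]
      change (_ : MvPolynomial (Fin 3) R) * X 1 = _
      ring
    · refine ⟨Q * F, P, H * X 2 + inc3 R Q, ?_⟩
      rw [map_mul, eqn3]
      change (_ : MvPolynomial (Fin 3) R) * X 2 = _
      ring

variable (f : R →+* S) (x y e : S) (F : MvPolynomial (Fin 2) R)

/-- the evaluation at the three coordinates -/
noncomputable def ev3 : MvPolynomial (Fin 3) R →+* S := eval₂Hom f ![x, y, e]

theorem ev3_inc3 (P : MvPolynomial (Fin 2) R) : ev3 f x y e (inc3 R P) = eval₂Hom f ![x, y] P := by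
  have h : (ev3 f x y e).comp (inc3 R : MvPolynomial (Fin 2) R →+* MvPolynomial (Fin 3) R) =
      eval₂Hom f ![x, y] := by
    apply MvPolynomial.ringHom_ext
    · intro r
      simp [ev3, inc3]
    · intro i
      fin_cases i <;> simp [ev3, inc3]
  exact congr($h P)

@[simp] theorem ev3_X2 : ev3 f x y e (X 2) = e := by simp [ev3]

@[simp] theorem ev3_X1 : ev3 f x y e (X 1) = y := by simp [ev3]

@[simp] theorem ev3_X0 : ev3 f x y e (X 0) = x := by simp [ev3]

@[simp] theorem ev3_C (r : R) : ev3 f x y e (C r) = f r := by simp [ev3]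

variable {f x y e F}

theorem ev3_eqn3 (he : e ^ 2 = eval₂Hom f ![x, y] F) : ev3 f x y e (eqn3 F) = 0 := by
  rw [eqn3, map_sub, map_pow, ev3_X2, ev3_inc3, he, sub_self]

theorem ev3_surjective (hs : ∀ s : S, ∃ P Q : MvPolynomial (Fin 2) R,
    eval₂Hom f ![x, y] P + eval₂Hom f ![x, y] Q * e = s) :
    Function.Surjective (ev3 f x y e) := by
  intro s
  obtain ⟨P, Q, rfl⟩ := hs s
  exact ⟨inc3 R P + inc3 R Q * X 2, by rw [map_add, map_mul, ev3_X2, ev3_inc3, ev3_inc3]⟩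

theorem ker_ev3 (he : e ^ 2 = eval₂Hom f ![x, y] F)
    (hi : ∀ P Q : MvPolynomial (Fin 2) R,
      eval₂Hom f ![x, y] P + eval₂Hom f ![x, y] Q * e = 0 → P = 0 ∧ Q = 0) :
    RingHom.ker (ev3 f x y e) = Ideal.span {eqn3 F} := by
  apply le_antisymm
  · intro G hG
    obtain ⟨P, Q, H, rfl⟩ := exists_rem3 F G
    rw [RingHom.mem_ker, map_add, map_mul _ H, ev3_eqn3 he, mul_zero, add_zero, map_add, map_mul,
      ev3_X2, ev3_inc3, ev3_inc3] at hG
    obtain ⟨rfl, rfl⟩ := hi P Q hG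
    rw [map_zero, zero_mul, zero_add, zero_add]
    exact Ideal.mul_mem_left _ _ (Ideal.mem_span_singleton_self _)
  · rw [Ideal.span_singleton_le_iff_mem]
    exact ev3_eqn3 he

/-- the coordinate ring is smooth if `1 = ∑ c_i ∂_i + g (e ^ 2 - F)` -/
theorem smooth_of_free (he : e ^ 2 = eval₂Hom f ![x, y] F)
    (hb : Function.Bijective fun P : MvPolynomial (Fin 2) R × MvPolynomial (Fin 2) R =>
      eval₂Hom f ![x, y] P.1 + eval₂Hom f ![x, y] P.2 * e)
    (c : Fin 3 → MvPolynomial (Fin 3) R) (g : MvPolynomial (Fin 3) R)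
    (h : ∑ i, c i * pderiv i (eqn3 F) = 1 + g * eqn3 F) : f.Smooth := by
  algebraize [f]
  change Algebra.Smooth R S
  have h0 : ∀ P Q : MvPolynomial (Fin 2) R,
      eval₂Hom f ![x, y] P + eval₂Hom f ![x, y] Q * e = 0 → P = 0 ∧ Q = 0 := by
    intro P Q hPQ
    have h1 := @hb.1 (P, Q) (0, 0) (by
      show eval₂Hom f ![x, y] P + eval₂Hom f ![x, y] Q * e =
        eval₂Hom f ![x, y] 0 + eval₂Hom f ![x, y] 0 * e
      rw [hPQ, map_zero, zero_mul, zero_add])
    exact ⟨congrArg Prod.fst h1, congrArg Prod.snd h1⟩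
  let φ : MvPolynomial (Fin 3) R →ₐ[R] S := { ev3 f x y e with
    commutes' := fun r => by
      show ev3 f x y e (C r) = f r
      exact ev3_C f x y e r }
  refine smooth_of_pderiv φ ?_ (eqn3 F) (ker_ev3 he h0) c g h
  refine ev3_surjective fun s => ?_
  obtain ⟨P, hP⟩ := hb.2 s
  exact ⟨P.1, P.2, hP⟩

end

section deriv

variable {R : Type*} [CommRing R]

/-- a polynomial in the first coordinate -/
noncomputable def pX {σ : Type*} (i : σ) (p : Polynomial R) : MvPolynomial σ R :=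
  Polynomial.aeval (X i) p

theorem inc3_pX (p : Polynomial R) : inc3 R (pX 0 p) = pX 0 p := by
  rw [pX, ← Polynomial.aeval_algHom_apply, inc3_X0]
  rfl

theorem pderiv_pX_self {σ : Type*} [DecidableEq σ] (i : σ) (p : Polynomial R) :
    pderiv i (pX i p) = pX i (Polynomial.derivative p) := by
  rw [pX, Derivation.map_aeval, pderiv_X_self, smul_eq_mul, mul_one]
  rfl

theorem pderiv_pX_ne {σ : Type*} [DecidableEq σ] {i j : σ} (h : i ≠ j) (p : Polynomial R) :
    pderiv i (pX j p) = 0 := by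
  rw [pX, Derivation.map_aeval, pderiv_X_of_ne h.symm, smul_zero]

/-- the chart `w ≠ 0`: `e ^ 2 = a y ^ 2 + q(x)` -/
theorem jac_w (a : R) (q : Polynomial R) (h2 : IsUnit (2 : R))
    (hq : IsCoprime q (Polynomial.derivative q)) :
    ∃ (c : Fin 3 → MvPolynomial (Fin 3) R) (g : MvPolynomial (Fin 3) R),
      ∑ i, c i * pderiv i (eqn3 (C a * X 1 ^ 2 + pX 0 q)) =
        1 + g * eqn3 (C a * X 1 ^ 2 + pX 0 q) := by
  obtain ⟨α, β, hab⟩ := hq
  obtain ⟨u, hu⟩ := h2
  have hu' : (C ((u⁻¹ : Rˣ) : R) : MvPolynomial (Fin 3) R) * 2 = 1 := by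
    rw [show (2 : MvPolynomial (Fin 3) R) = C (2 : R) from (map_ofNat C 2).symm, ← C_mul, ← hu,
      Units.inv_mul, C_1]
  have hab' : pX (0 : Fin 3) α * pX 0 q + pX 0 β * pX 0 (Polynomial.derivative q) = 1 := by
    simp only [pX, ← map_mul, ← map_add]
    rw [hab, map_one]
  have e0 : eqn3 (C a * X 1 ^ 2 + pX 0 q) = X 2 ^ 2 - C a * X 1 ^ 2 - pX 0 q := by
    rw [eqn3, map_add, map_mul, map_pow, inc3_X1, inc3_pX]
    have : inc3 R (C a) = C a := by simp [inc3]
    rw [this]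
    ring
  have d0 : pderiv 0 (X 2 ^ 2 - C a * X 1 ^ 2 - pX 0 q : MvPolynomial (Fin 3) R) =
      - pX 0 (Polynomial.derivative q) := by
    rw [map_sub, map_sub, pderiv_pX_self, Derivation.leibniz_pow, Derivation.leibniz,
      Derivation.leibniz_pow, pderiv_X_of_ne (by decide), pderiv_X_of_ne (by decide), pderiv_C]
    simp
  have d1 : pderiv 1 (X 2 ^ 2 - C a * X 1 ^ 2 - pX 0 q : MvPolynomial (Fin 3) R) =
      - (2 * C a * X 1) := by
    rw [map_sub, map_sub, pderiv_pX_ne (by decide), Derivation.leibniz_pow, Derivation.leibniz,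
      Derivation.leibniz_pow, pderiv_X_of_ne (by decide), pderiv_X_self, pderiv_C]
    simp
    ring
  have d2 : pderiv 2 (X 2 ^ 2 - C a * X 1 ^ 2 - pX 0 q : MvPolynomial (Fin 3) R) =
      2 * X 2 := by
    rw [map_sub, map_sub, pderiv_pX_ne (by decide), Derivation.leibniz_pow, Derivation.leibniz,
      Derivation.leibniz_pow, pderiv_X_self, pderiv_X_of_ne (show (1 : Fin 3) ≠ 2 by decide),
      pderiv_C]
    simp
  refine ⟨![- pX 0 β, pX 0 α * C ((u⁻¹ : Rˣ) : R) * X 1, pX 0 α * C ((u⁻¹ : Rˣ) : R) * X 2],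
    pX 0 α, ?_⟩
  rw [e0, Fin.sum_univ_three, d0, d1, d2]
  simp only [Matrix.cons_val]
  linear_combination hab' + (pX 0 α * X 2 ^ 2 - pX 0 α * C a * X 1 ^ 2) * hu'

/-- the chart `z ≠ 0`: `e ^ 2 = a + q(x) y ^ 2` -/
theorem jac_z (a : R) (q : Polynomial R) (h2 : IsUnit (2 : R)) (ha : IsUnit a) :
    ∃ (c : Fin 3 → MvPolynomial (Fin 3) R) (g : MvPolynomial (Fin 3) R),
      ∑ i, c i * pderiv i (eqn3 (C a + pX 0 q * X 1 ^ 2)) =
        1 + g * eqn3 (C a + pX 0 q * X 1 ^ 2) := by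
  obtain ⟨u, hu⟩ := h2
  obtain ⟨b, hb⟩ := ha
  have hu' : (C ((u⁻¹ : Rˣ) : R) : MvPolynomial (Fin 3) R) * 2 = 1 := by
    rw [show (2 : MvPolynomial (Fin 3) R) = C (2 : R) from (map_ofNat C 2).symm, ← C_mul, ← hu,
      Units.inv_mul, C_1]
  have hb' : (C ((b⁻¹ : Rˣ) : R) : MvPolynomial (Fin 3) R) * C a = 1 := by
    rw [← C_mul, ← hb, Units.inv_mul, C_1]
  have e0 : eqn3 (C a + pX 0 q * X 1 ^ 2) = X 2 ^ 2 - C a - pX 0 q * X 1 ^ 2 := by
    rw [eqn3, map_add, map_mul, map_pow, inc3_X1, inc3_pX]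
    have : inc3 R (C a) = C a := by simp [inc3]
    rw [this]
    ring
  have d0 : pderiv 0 (X 2 ^ 2 - C a - pX 0 q * X 1 ^ 2 : MvPolynomial (Fin 3) R) =
      - (pX 0 (Polynomial.derivative q) * X 1 ^ 2) := by
    rw [map_sub, map_sub, Derivation.leibniz_pow, Derivation.leibniz, pderiv_pX_self,
      Derivation.leibniz_pow, pderiv_X_of_ne (by decide), pderiv_X_of_ne (by decide), pderiv_C]
    simp
    ring
  have d1 : pderiv 1 (X 2 ^ 2 - C a - pX 0 q * X 1 ^ 2 : MvPolynomial (Fin 3) R) =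
      - (2 * pX 0 q * X 1) := by
    rw [map_sub, map_sub, Derivation.leibniz_pow, Derivation.leibniz, pderiv_pX_ne (by decide),
      Derivation.leibniz_pow, pderiv_X_of_ne (by decide), pderiv_X_self, pderiv_C]
    simp
    ring
  have d2 : pderiv 2 (X 2 ^ 2 - C a - pX 0 q * X 1 ^ 2 : MvPolynomial (Fin 3) R) =
      2 * X 2 := by
    rw [map_sub, map_sub, Derivation.leibniz_pow, Derivation.leibniz, pderiv_pX_ne (by decide),
      Derivation.leibniz_pow, pderiv_X_self, pderiv_X_of_ne (show (1 : Fin 3) ≠ 2 by decide),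
      pderiv_C]
    simp
  refine ⟨![0, C ((b⁻¹ : Rˣ) : R) * C ((u⁻¹ : Rˣ) : R) * X 1,
    C ((b⁻¹ : Rˣ) : R) * C ((u⁻¹ : Rˣ) : R) * X 2], C ((b⁻¹ : Rˣ) : R), ?_⟩
  rw [e0, Fin.sum_univ_three, d0, d1, d2]
  simp only [Matrix.cons_val]
  linear_combination (C ((b⁻¹ : Rˣ) : R) * X 2 ^ 2 - C ((b⁻¹ : Rˣ) : R) * pX 0 q * X 1 ^ 2) * hu' +
    hb'

end deriv

end Orl
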