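import Mathlib

/-!
# Smooth hypersurfaces

`k[x_i] / (f)` is smooth over `k` if `f` and its partial derivatives generate the unit ideal.
-/

open MvPolynomial

namespace Orl

section

variable {k P A : Type*} [CommRing k] [CommRing P] [CommRing A] [Algebra k P] [Algebra k A]

/-- the quotient of a smooth algebra by an element with an invertible derivative is formally
smooth -/
theorem formallySmooth_of_derivation [Algebra.FormallySmooth k P] (φ : P →ₐ[k] A)
    (hs : Function.Surjective φ) (f : P) (hf : RingHom.ker φ.toRingHom = Ideal.span {f})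
    (D : Derivation k P P) (g : P) (h : D f = 1 + g * f) : Algebra.FormallySmooth k A := by
  set I : Ideal P := RingHom.ker φ.toRingHom with hI
  have hfm : f ∈ I := by
    rw [hf]
    exact Ideal.mem_span_singleton_self f
  have hff : ∀ a : P, Ideal.Quotient.mk (I ^ 2) (a * (f * f)) = 0 := by
    intro a
    rw [Ideal.Quotient.eq_zero_iff_mem, pow_two]
    exact Ideal.mul_mem_left _ _ (Ideal.mul_mem_mul hfm hfm)
  let G : P →ₐ[k] P ⧸ I ^ 2 :=
    { toFun := fun p => Ideal.Quotient.mk (I ^ 2) (p - D p * f)
      map_one' := by simp
      map_zero' := by simp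
      map_add' := fun p q => by
        rw [← map_add, map_add D]
        congr 1
        ring
      map_mul' := fun p q => by
        rw [← map_mul, ← sub_eq_zero, ← map_sub, D.leibniz, ← hff (- (D p * D q))]
        congr 1
        simp only [smul_eq_mul]
        ring
      commutes' := fun r => by
        simp only [D.map_algebraMap, zero_mul, sub_zero]
        rfl }
  have hG : ∀ p ∈ I, G p = 0 := by
    intro p hp
    rw [hf, Ideal.mem_span_singleton] at hp
    obtain ⟨q, rfl⟩ := hp
    have h1 : G f = 0 := by
      change Ideal.Quotient.mk (I ^ 2) (f - D f * f) = 0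
      rw [h, ← hff (-g)]
      congr 1
      ring
    rw [map_mul, h1, zero_mul]
  let e := Ideal.quotientKerAlgEquivOfSurjective hs
  refine Algebra.FormallySmooth.of_split φ ((Ideal.Quotient.liftₐ I G hG).comp
    (e.symm : A →ₐ[k] P ⧸ RingHom.ker φ)) ?_
  ext a
  obtain ⟨p, rfl⟩ := hs a
  have h1 : e.symm (φ p) = Ideal.Quotient.mk _ p := by
    rw [AlgEquiv.symm_apply_eq]
    rfl
  simp only [AlgHom.comp_apply]
  change φ.kerSquareLift (Ideal.Quotient.liftₐ I G hG (e.symm (φ p))) = φ p
  rw [h1]
  change φ (p - D p * f) = φ p
  have h2 : φ f = 0 := hfm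
  rw [map_sub, map_mul, h2, mul_zero, sub_zero]

end

variable {k σ A : Type*} [CommRing k] [CommRing A] [Algebra k A]

/-- the Jacobian criterion for one equation -/
theorem smooth_of_pderiv [Fintype σ] (φ : MvPolynomial σ k →ₐ[k] A)
    (hs : Function.Surjective φ) (f : MvPolynomial σ k)
    (hf : RingHom.ker φ.toRingHom = Ideal.span {f})
    (c : σ → MvPolynomial σ k) (g : MvPolynomial σ k)
    (h : ∑ i, c i * pderiv i f = 1 + g * f) : Algebra.Smooth k A where
  formallySmooth := by
    refine formallySmooth_of_derivation φ hs f hf (∑ i, c i • pderiv i) g ?_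
    rw [← h]
    have h1 := congrFun (map_sum (Derivation.coeFnAddMonoidHom (R := k)
      (A := MvPolynomial σ k) (M := MvPolynomial σ k)) (fun i => c i • pderiv i) Finset.univ) f
    rw [Finset.sum_apply] at h1
    exact h1
  finitePresentation := by
    have h1 : Algebra.FinitePresentation k (MvPolynomial σ k ⧸ RingHom.ker φ) := by
      refine Algebra.FinitePresentation.quotient ?_
      change (RingHom.ker φ.toRingHom).FG
      rw [hf]
      exact ⟨{f}, by simp⟩
    exact Algebra.FinitePresentation.equiv (Ideal.quotientKerAlgEquivOfSurjective hs)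

end Orl
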